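import Mathlib
set_option autoImplicit false
namespace Pool.Agent.Helper877.Jor

/-- every element of `G` is conjugate to an element of `H` -/
def Covers (G : Type) [Group G] (H : Subgroup G) : Prop :=
  ∀ x : G, ∃ g : G, g * x * g⁻¹ ∈ H



theorem jordan (G : Type) [Group G] [Finite G] (H : Subgroup G) (h : Covers G H) : H = ⊤ := by
  classical
  have hne : ∀ p : (G ⧸ H) × {k : H // k ≠ 1},
      Quotient.out p.1 * ((p.2.1 : H) : G) * (Quotient.out p.1)⁻¹ ≠ 1 := by
    rintro ⟨c, k, hk⟩ hx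
    apply hk
    apply Subtype.ext
    have h1 : Quotient.out c * (k : G) = Quotient.out c := by
      have h2 := mul_eq_one_iff_eq_inv.mp hx
      rwa [inv_inv] at h2
    exact mul_eq_left.mp h1
  have key : Nat.card {x : G // x ≠ 1} ≤ Nat.card ((G ⧸ H) × {k : H // k ≠ 1}) := by
    refine Nat.card_le_card_of_surjective
      (fun p : (G ⧸ H) × {k : H // k ≠ 1} =>
        (⟨Quotient.out p.1 * ((p.2.1 : H) : G) * (Quotient.out p.1)⁻¹, hne p⟩ :
          {x : G // x ≠ 1})) ?_
    rintro ⟨x, hx⟩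
    obtain ⟨g, hg⟩ := h x
    have h1 : (Quotient.out (QuotientGroup.mk g⁻¹ : G ⧸ H))⁻¹ * g⁻¹ ∈ H := by
      rw [← QuotientGroup.eq]
      exact QuotientGroup.out_eq' _
    set c : G := Quotient.out (QuotientGroup.mk g⁻¹ : G ⧸ H) with hc
    have h2 : (c⁻¹ * g⁻¹) * (g * x * g⁻¹) * (c⁻¹ * g⁻¹)⁻¹ ∈ H :=
      H.mul_mem (H.mul_mem h1 hg) (H.inv_mem h1)
    have h3 : (c⁻¹ * g⁻¹) * (g * x * g⁻¹) * (c⁻¹ * g⁻¹)⁻¹ = c⁻¹ * x * c := by group
    rw [h3] at h2
    have h4 : (⟨c⁻¹ * x * c, h2⟩ : H) ≠ 1 := by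
      intro h5
      apply hx
      have h6 : c⁻¹ * x * c = 1 := congrArg Subtype.val h5
      have h7 : x = c * (c⁻¹ * x * c) * c⁻¹ := by group
      rw [h7, h6]
      group
    refine ⟨(QuotientGroup.mk g⁻¹, ⟨⟨c⁻¹ * x * c, h2⟩, h4⟩), ?_⟩
    apply Subtype.ext
    change c * (c⁻¹ * x * c) * c⁻¹ = x
    group
  have hG : Nat.card {x : G // x ≠ 1} + 1 = Nat.card G := by
    rw [← Finite.card_option]
    exact Nat.card_congr (Equiv.optionSubtypeNe (1 : G))
  have hH : Nat.card {k : H // k ≠ 1} + 1 = Nat.card H := by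
    rw [← Finite.card_option]
    exact Nat.card_congr (Equiv.optionSubtypeNe (1 : H))
  rw [Nat.card_prod] at key
  have hidx : Nat.card (G ⧸ H) = H.index := rfl
  have hmul := Subgroup.card_mul_index H
  rw [hidx] at key
  rw [← hmul, ← hH] at hG
  have h8 : H.index ≤ 1 := by
    have h9 : (Nat.card {k : H // k ≠ 1} + 1) * H.index =
      H.index * Nat.card {k : H // k ≠ 1} + H.index := by ring
    omega
  have h10 : H.index ≠ 0 := Subgroup.index_ne_zero_of_finite
  exact Subgroup.index_eq_one.mp (by omega)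

theorem covers_simple (G : Type) [Group G] (H : Subgroup G) (hs : IsSimpleGroup H) (h : Covers G H) :
    IsSimpleGroup G := by
  have : Nontrivial H := hs.toNontrivial
  have hG : Nontrivial G := by
    obtain ⟨a, b, hab⟩ := exists_pair_ne H
    exact ⟨⟨(a : G), (b : G), fun h => hab (Subtype.ext h)⟩⟩
  refine { exists_pair_ne := hG.exists_pair_ne, eq_bot_or_eq_top_of_normal := ?_ }
  intro N hN
  by_cases hb : N = ⊥
  · exact Or.inl hb
  · right
    obtain ⟨⟨x, hxN⟩, hx1'⟩ := Subgroup.ne_bot_iff_exists_ne_one.1 hb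
    have hx1 : x ≠ 1 := fun h => hx1' (Subtype.ext h)
    obtain ⟨g, hg⟩ := h x
    have hgN : g * x * g⁻¹ ∈ N := hN.conj_mem x hxN g
    have hne : g * x * g⁻¹ ≠ 1 := by
      intro h1
      apply hx1
      have : x = g⁻¹ * (g * x * g⁻¹) * g := by group
      rw [this, h1]
      group
    have hnorm : (N.subgroupOf H).Normal := inferInstance
    have htop : N.subgroupOf H = ⊤ := by
      rcases hs.eq_bot_or_eq_top_of_normal (N.subgroupOf H) hnorm with h1 | h1
      · exfalso
        have h2 : (⟨g * x * g⁻¹, hg⟩ : H) ∈ N.subgroupOf H := Subgroup.mem_subgroupOf.2 hgN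
        rw [h1, Subgroup.mem_bot] at h2
        exact hne (congrArg Subtype.val h2)
      · exact h1
    have hle : H ≤ N := Subgroup.subgroupOf_eq_top.1 htop
    rw [eq_top_iff]
    intro y _
    obtain ⟨g, hg⟩ := h y
    have h1 : g * y * g⁻¹ ∈ N := hle hg
    have h2 := hN.conj_mem _ h1 g⁻¹
    have h3 : g⁻¹ * (g * y * g⁻¹) * g⁻¹⁻¹ = y := by group
    rwa [h3] at h2

theorem covers_exponent (G : Type) [Group G] (H : Subgroup G) (h : Covers G H) :
    ∀ g : G, g ^ Monoid.exponent H = 1 := by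
  intro x
  obtain ⟨g, hg⟩ := h x
  have h1 : (⟨g * x * g⁻¹, hg⟩ : H) ^ Monoid.exponent H = 1 := Monoid.pow_exponent_eq_one _
  have h2 : (g * x * g⁻¹) ^ Monoid.exponent H = 1 := by
    have h3 := congrArg (Subtype.val : H → G) h1
    simpa using h3
  rw [conj_pow] at h2
  have h4 : g * x ^ Monoid.exponent H = g := by
    have h5 := congrArg (· * g) h2
    simpa using h5
  exact mul_eq_left.mp h4

theorem covers_conj (G : Type) [Group G] (H : Subgroup G) [Finite H] (h : Covers G H) :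
    Finite (ConjClasses G) := by
  refine Finite.of_surjective (fun t : H => ConjClasses.mk (t : G)) ?_
  intro c
  obtain ⟨x, rfl⟩ := ConjClasses.exists_rep c
  obtain ⟨g, hg⟩ := h x
  refine ⟨⟨g * x * g⁻¹, hg⟩, ?_⟩
  show ConjClasses.mk (g * x * g⁻¹) = ConjClasses.mk x
  rw [ConjClasses.mk_eq_mk_iff_isConj]
  exact (isConj_iff.2 ⟨g, rfl⟩).symm

theorem simple_no_finite_index (G : Type) [Group G] [Infinite G] [IsSimpleGroup G] (K : Subgroup G)
    (hK : K.FiniteIndex) : K = ⊤ := by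
  have h1 : K.normalCore.Normal := inferInstance
  have h2 : K.normalCore.FiniteIndex := inferInstance
  rcases h1.eq_bot_or_eq_top with h | h
  · exfalso
    have h4 := h2.index_ne_zero
    rw [h, Subgroup.index_bot, Nat.card_eq_zero_of_infinite] at h4
    exact h4 rfl
  · have h5 := K.normalCore_le
    rw [h] at h5
    exact top_le_iff.1 h5

theorem covers_normalizer (G : Type) [Group G] [Infinite G] (H : Subgroup G) [Finite H] (h : Covers G H) :
    ¬ (Subgroup.normalizer (H : Set G)).FiniteIndex := by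
  intro hfi
  haveI : Finite (G ⧸ Subgroup.normalizer (H : Set G)) := Subgroup.finite_quotient_of_finiteIndex
  have hsurj : Function.Surjective (fun p : (G ⧸ Subgroup.normalizer (H : Set G)) × H =>
      p.1.out * (p.2 : G) * (p.1.out)⁻¹) := by
    intro x
    obtain ⟨g, hg⟩ := h x
    obtain ⟨n, hn⟩ := QuotientGroup.mk_out_eq_mul (Subgroup.normalizer (H : Set G)) g⁻¹
    have hmem : (n : G)⁻¹ * (g * x * g⁻¹) * (n : G) ∈ H := by
      have h1 := (Subgroup.normalizer (H : Set G)).inv_mem n.2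
      rw [Subgroup.mem_normalizer_iff] at h1
      have h2 := (h1 (g * x * g⁻¹)).1 hg
      rwa [inv_inv] at h2
    refine ⟨(QuotientGroup.mk g⁻¹, ⟨_, hmem⟩), ?_⟩
    show (QuotientGroup.mk g⁻¹ : G ⧸ Subgroup.normalizer (H : Set G)).out *
      ((n : G)⁻¹ * (g * x * g⁻¹) * (n : G)) *
      ((QuotientGroup.mk g⁻¹ : G ⧸ Subgroup.normalizer (H : Set G)).out)⁻¹ = x
    rw [hn]
    group
  haveI : Finite G := Finite.of_surjective _ hsurj
  exact not_finite G

-- TARGET:

theorem overgroup (G : Type) [Group G] (H K : Subgroup G) [Finite K] (hHK : H ≤ K)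
    (h : ∀ x ∈ K, ∃ g ∈ K, g * x * g⁻¹ ∈ H) : H = K := by
  have h1 : Covers K (H.subgroupOf K) := by
    intro x
    obtain ⟨g, hg, hx⟩ := h x.1 x.2
    refine ⟨⟨g, hg⟩, ?_⟩
    rw [Subgroup.mem_subgroupOf]
    simpa using hx
  have h2 := jordan K (H.subgroupOf K) h1
  exact le_antisymm hHK (Subgroup.subgroupOf_eq_top.1 h2)

end Pool.Agent.Helper877.Jor
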